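import Mathlib
import Pool.Agent.KS6_51.WQ.Fam

/-!
# `n ^ (c log n)` strongly regular graphs which the `k`-dimensional WL method does not distinguish

For all `k` and all `b ≥ 400 (k + 1)²` there is a family of at least
`2 ^ ⌊b² / (500 (k + 1)³)⌋` pairwise non-isomorphic strongly regular graphs with
the parameters `((2 ^ b)², 3 (2 ^ b - 1), 2 ^ b, 6)`, no two of which are distinguished by the
`k`-dimensional Weisfeiler-Leman method. With `n = 4 ^ b` vertices the size of the family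
is `n ^ (c log n)`, where `c > 0` depends only on `k`.
-/

set_option autoImplicit false

namespace Pool.Agent.Results.MP_d81a4d_co.QuasipolynomialFamilies

open Pool.Agent.W185.SRG

open Classical in
theorem result (k b : ℕ) (hb : 400 * (k + 1) ^ 2 ≤ b) :
    ∃ 𝓕 : Finset (SimpleGraph (Fin ((2 ^ b) ^ 2))),
      2 ^ (b ^ 2 / (500 * (k + 1) ^ 3)) ≤ 𝓕.card ∧
      (∀ G ∈ 𝓕, G.IsSRGWith ((2 ^ b) ^ 2) (3 * (2 ^ b - 1)) (2 ^ b) 6) ∧
      ∀ G ∈ 𝓕, ∀ H ∈ 𝓕, WLEquivalent k G H ∧ (G ≠ H → IsEmpty (G ≃g H)) :=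
  Pool.Agent.KS6_51.WQ.main k b hb

end Pool.Agent.Results.MP_d81a4d_co.QuasipolynomialFamilies
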